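import Mathlib

/-!
Infinitely many counterexamples to the shuffle variant of the Terai-Jesmanowicz conjecture.
If `a ^ 2 + 1 = 2 * c ^ 2` and `b = c ^ 2 - 1`, then `a ^ 2 + b ^ 2 = c ^ 4` and
`c ^ 2 + b ^ 1 = a ^ 2`.  The first case is `(a, b, c) = (7, 24, 5)`.
-/

set_option autoImplicit false

namespace Pool.Agent.Results.MP_aa870c_nt.Counterexamples

theorem pell (n : ℕ) : ∃ a c : ℕ, a ^ 2 + 1 = 2 * c ^ 2 ∧ n + 5 ≤ c := by
  induction n with
  | zero => exact ⟨7, 5, by norm_num, by norm_num⟩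
  | succ n ih =>
    obtain ⟨a, c, h, hc⟩ := ih
    refine ⟨3 * a + 4 * c, 2 * a + 3 * c, ?_, by omega⟩
    nlinarith [h]

/-- There are infinitely many triples `(a, b, c)` that satisfy all hypotheses of the conjecture
for some exponents `p, q, r` and for which `c ^ X + b ^ Y = a ^ Z` has a solution in positive
integers. -/
theorem result :
    Set.Infinite {t : ℕ × ℕ × ℕ | ∃ a b c p q r : ℕ, t = (a, b, c) ∧
      1 < a ∧ 1 < b ∧ 1 < c ∧ Nat.gcd a (Nat.gcd b c) = 1 ∧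
      1 < p ∧ 1 < q ∧ 1 < r ∧ a ^ p + b ^ q = c ^ r ∧
      a < b ∧ (a, b, c) ≠ (2, 7, 3) ∧
      (∀ k : ℕ, 0 < k → (a, b, c) ≠ (2, 2 ^ k - 1, 2 ^ k + 1)) ∧
      ¬ (q = 2 ∧ r = 2 ∧ c = b + 1) ∧
      ∃ X Y Z : ℕ, 0 < X ∧ 0 < Y ∧ 0 < Z ∧ c ^ X + b ^ Y = a ^ Z} := by
  apply Set.Infinite.of_image (fun t : ℕ × ℕ × ℕ => t.2.2)
  apply Set.infinite_of_not_bddAbove
  rintro ⟨N, hN⟩
  obtain ⟨a, c, h, hc⟩ := pell N
  have hc5 : 5 ≤ c := by omega
  obtain ⟨b, hb⟩ : ∃ b : ℕ, c ^ 2 = b + 1 := ⟨c ^ 2 - 1, by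
    have : 1 ≤ c ^ 2 := Nat.one_le_pow _ _ (by omega)
    omega⟩
  have hb24 : 5 * c ≤ b + 1 := by nlinarith
  have ha2 : a ^ 2 = 2 * b + 1 := by omega
  have ha7 : 7 ≤ a := by
    by_contra hlt
    have h6 : a ≤ 6 := by omega
    have : a ^ 2 ≤ 6 ^ 2 := Nat.pow_le_pow_left h6 2
    omega
  have hab : a < b := by
    by_contra hlt
    have h6 : b ≤ a := by omega
    nlinarith
  have hcop : Nat.gcd b c = 1 := by
    have h1 : Nat.gcd b c ∣ b + 1 := by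
      rw [← hb]
      exact Dvd.dvd.pow (Nat.gcd_dvd_right b c) (by norm_num)
    have h2 : Nat.gcd b c ∣ 1 := (Nat.dvd_add_right (Nat.gcd_dvd_left b c)).mp h1
    exact Nat.dvd_one.mp h2
  have hmem : c ≤ N := by
    apply hN
    refine ⟨(a, b, c), ⟨a, b, c, 2, 2, 4, rfl, by omega, by omega, by omega, ?_, by norm_num,
      by norm_num, by norm_num, ?_, hab, ?_, ?_, ?_, 2, 1, 2, by norm_num, by norm_num,
      by norm_num, ?_⟩, rfl⟩
    · rw [hcop]; simp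
    · have : c ^ 4 = (b + 1) ^ 2 := by rw [← hb]; ring
      rw [this, ha2]; ring
    · intro h2
      simp only [Prod.mk.injEq] at h2
      omega
    · intro k _ h2
      simp only [Prod.mk.injEq] at h2
      omega
    · rintro ⟨-, h2, -⟩
      omega
    · rw [hb, ha2]; ring
  omega

end Pool.Agent.Results.MP_aa870c_nt.Counterexamples
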